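import Pool.Agent.J4H7.AF.Stm

set_option autoImplicit false

/-! Project AF (helper7), piece MEAN. -/

namespace Pool.Agent.J4H72.AF

open Finset MeasureTheory
open Pool.Agent.J4H7.AF
open Pool.Agent.J4H7.WT (DD Nr EX mm mm_ge vol_EX Nr_EX)

/-- the differences are bounded -/
lemma mm_le2 {k M : ℕ} (hM : 1 ≤ M) {x y : Fin k → ℕ} (hx : ∀ j, x j ≤ M) (hy : ∀ j, y j ≤ M) :
    mm x y ≤ (1 + k * k) * (M : ℝ) ^ k := by
  have hM1 : (1 : ℝ) ≤ M := by exact_mod_cast hM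
  unfold mm
  have h1 : ∀ i : Fin k, |DD (i : ℕ) x y| ≤ k * (M : ℝ) ^ k := by
    intro i
    unfold DD
    refine (Finset.abs_sum_le_sum_abs _ _).trans ?_
    calc ∑ j, |((x j : ℝ) ^ (i : ℕ) - (y j : ℝ) ^ (i : ℕ))| ≤ ∑ _j : Fin k, (M : ℝ) ^ k := by
          refine Finset.sum_le_sum fun j _ => ?_
          have a1 : (x j : ℝ) ^ (i : ℕ) ≤ (M : ℝ) ^ k :=
            (pow_le_pow_left₀ (by positivity) (by exact_mod_cast hx j) _).trans (pow_le_pow_right₀ hM1 i.2.le)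
          have a2 : (y j : ℝ) ^ (i : ℕ) ≤ (M : ℝ) ^ k :=
            (pow_le_pow_left₀ (by positivity) (by exact_mod_cast hy j) _).trans (pow_le_pow_right₀ hM1 i.2.le)
          have a3 : (0 : ℝ) ≤ (x j : ℝ) ^ (i : ℕ) := by positivity
          have a4 : (0 : ℝ) ≤ (y j : ℝ) ^ (i : ℕ) := by positivity
          rw [abs_le]
          constructor <;> linarith
      _ = _ := by simp
  have h2 : ∑ i : Fin k, |DD (i : ℕ) x y| ≤ k * (k * (M : ℝ) ^ k) := by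
    calc ∑ i : Fin k, |DD (i : ℕ) x y| ≤ ∑ _i : Fin k, (k * (M : ℝ) ^ k : ℝ) := Finset.sum_le_sum fun i _ => h1 i
      _ = _ := by simp
  have h4 : (1 : ℝ) ≤ (M : ℝ) ^ k := one_le_pow₀ hM1
  nlinarith

open scoped Classical in
/-- one pair: the volume by dyadic levels -/
lemma vol_dyadic2 {t Λ : ℕ} {L τ : ℝ} (hL : 1 ≤ L) (hτ : 0 ≤ τ) {x y : Fin (t + 1) → ℕ}
    (hΛ : (τ + L) * mm x y ≤ 2 ^ Λ) :
    volume (EX (t + 1) L τ x y) ≤ ENNReal.ofReal ((L ^ (t + 1) + 2 * τ * (t + 2) * L ^ t) * (2 * (τ + L)) *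
      ∑ l ∈ range (Λ + 2), (1 / 2 : ℝ) ^ l * (if Nr (t + 1) (2 ^ l) x y then 1 else 0)) := by
  set C1 : ℝ := L ^ (t + 1) + 2 * τ * (t + 2) * L ^ t with hC1
  have hC10 : 0 ≤ C1 := by positivity
  have hL0 : 0 < L := by linarith
  have hm := mm_ge x y
  rcases (EX (t + 1) L τ x y).eq_empty_or_nonempty with h | h
  · rw [h, measure_empty]
    exact bot_le
  · have h1 := vol_EX hL hτ x y
    refine h1.trans (ENNReal.ofReal_le_ofReal ?_)
    have h2 : 1 ≤ (τ + L) * mm x y := by nlinarith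
    obtain ⟨l, hl1, hl2⟩ := exists_nat_pow_near h2 (by norm_num : (1 : ℝ) < 2)
    have hN := Nr_EX hL hτ x y h hl2.le
    have h3 : (2 : ℝ) ^ l ≤ 2 ^ Λ := hl1.trans hΛ
    have h4 : l ≤ Λ := (pow_le_pow_iff_right₀ (by norm_num : (1 : ℝ) < 2)).1 h3
    have h5 : (1 / 2 : ℝ) ^ (l + 1) ≤ ∑ l ∈ range (Λ + 2), (1 / 2 : ℝ) ^ l * (if Nr (t + 1) (2 ^ l) x y then 1 else 0) := by
      have h6 := Finset.single_le_sum (f := fun l => (1 / 2 : ℝ) ^ l * (if Nr (t + 1) (2 ^ l) x y then (1 : ℝ) else 0))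
        (fun l _ => by
          split_ifs <;> positivity) (Finset.mem_range.2 (show l + 1 < Λ + 2 by omega))
      simp only [if_pos hN, mul_one] at h6
      exact h6
    have h7 : 1 / mm x y ≤ 2 * (τ + L) * (1 / 2 : ℝ) ^ (l + 1) := by
      rw [div_le_iff₀ (by linarith), one_div, inv_pow, pow_succ]
      have h8 : (0 : ℝ) < 2 ^ l := by positivity
      have e1 : 2 * (τ + L) * (2 ^ l * 2)⁻¹ * mm x y = (τ + L) * mm x y / 2 ^ l := by
        field_simp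
      rw [e1, one_le_div h8]
      exact hl1
    calc C1 / mm x y = C1 * (1 / mm x y) := by ring
      _ ≤ C1 * (2 * (τ + L) * (1 / 2 : ℝ) ^ (l + 1)) := mul_le_mul_of_nonneg_left h7 hC10
      _ ≤ C1 * (2 * (τ + L) * ∑ l ∈ range (Λ + 2), (1 / 2 : ℝ) ^ l * (if Nr (t + 1) (2 ^ l) x y then 1 else 0)) := by
          apply mul_le_mul_of_nonneg_left _ hC10
          exact mul_le_mul_of_nonneg_left h5 (by linarith)
      _ = _ := by ring

/-- coordinates of a separated box -/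
lemma BX_lt {t K P L : ℕ} {c : Fin (t + 1) → ℕ} (hc : c ∈ Pool.Agent.J4H7.AF.Sep (t + 1) K) {x : Fin (t + 1) → ℕ}
    (hx : x ∈ BX K P L c) (j : Fin (t + 1)) : x j ≤ K * (P + 1) * L := by
  unfold Pool.Agent.J4H7.AF.Sep at hc
  have h1 := mem_range.1 (Fintype.mem_piFinset.1 (mem_filter.1 hc).1 j)
  unfold BX at hx
  have h2 := Fintype.mem_piFinset.1 hx j
  unfold Iv at h2
  have h3 := (Finset.mem_Ico.1 h2).2
  have h4 : (K * P + c j + 1) * L ≤ K * (P + 1) * L := by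
    apply Nat.mul_le_mul_right
    rw [Nat.mul_succ]
    omega
  omega

theorem t_MEAN : S_CNT → S_MEAN := by
  classical
  intro hCNT t K L0 τ hK hL hτ
  obtain ⟨C, hC, HC⟩ := hCNT t K hK
  have hL0 : 0 < L0 := by linarith
  set C0 : ℝ := (τ + L0) * (1 + ((t + 1 : ℕ) : ℝ) * ((t + 1 : ℕ) : ℝ)) with hC0
  obtain ⟨c0, hc0⟩ := pow_unbounded_of_one_lt C0 (by norm_num : (1 : ℝ) < 2)
  set C1 : ℝ := (L0 ^ (t + 1) + 2 * τ * (t + 2) * L0 ^ t) * (2 * (τ + L0)) with hC1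
  have hC10 : 0 ≤ C1 := by positivity
  refine ⟨1 + C1 * (C * (c0 + 2 + (t + 1))), ?_, fun P L M hL1 hM c hc => ?_⟩
  · have : 0 ≤ C1 * (C * (c0 + 2 + (t + 1))) := by positivity
    linarith
  have hM1 : 1 ≤ M := by
    refine le_trans ?_ hM
    have : 0 < K * (P + 1) * L := Nat.mul_pos (Nat.mul_pos (by omega) (by omega)) (by omega)
    omega
  set j : ℕ := Nat.log 2 M with hj
  set Λ : ℕ := c0 + (t + 1) * (j + 1) with hΛ
  have hM2 : (M : ℝ) ≤ (2 : ℝ) ^ (j + 1) := by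
    have h := (Nat.lt_pow_succ_log_self (b := 2) (by norm_num) M).le
    exact_mod_cast h
  have h1 : ∀ p ∈ BX K P L c ×ˢ BX K P L c, volume (EX (t + 1) L0 τ p.1 p.2) ≤ ENNReal.ofReal (C1 *
      ∑ l ∈ range (Λ + 2), (1 / 2 : ℝ) ^ l * (if Nr (t + 1) (2 ^ l) p.1 p.2 then 1 else 0)) := by
    intro p hp
    rw [Finset.mem_product] at hp
    refine vol_dyadic2 hL hτ ?_
    have h2 := mm_le2 hM1 (fun i => (BX_lt hc hp.1 i).trans hM) (fun i => (BX_lt hc hp.2 i).trans hM)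
    have e1 : (2 : ℝ) ^ Λ = 2 ^ c0 * ((2 : ℝ) ^ (j + 1)) ^ (t + 1) := by
      rw [hΛ, pow_add, ← pow_mul, mul_comm (t + 1) (j + 1)]
    rw [e1]
    calc (τ + L0) * mm p.1 p.2 ≤ (τ + L0) * ((1 + ((t + 1 : ℕ) : ℝ) * ((t + 1 : ℕ) : ℝ)) * (M : ℝ) ^ (t + 1)) :=
          mul_le_mul_of_nonneg_left h2 (by linarith)
      _ = C0 * (M : ℝ) ^ (t + 1) := by rw [hC0]; ring
      _ ≤ 2 ^ c0 * ((2 : ℝ) ^ (j + 1)) ^ (t + 1) :=
          mul_le_mul hc0.le (pow_le_pow_left₀ (by positivity) hM2 _) (by positivity) (by positivity)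
  refine (Finset.sum_le_sum h1).trans ?_
  rw [← ENNReal.ofReal_sum_of_nonneg]
  · apply ENNReal.ofReal_le_ofReal
    rw [← Finset.mul_sum, Finset.sum_comm]
    have h2 : ∀ l ∈ range (Λ + 2), ∑ p ∈ BX K P L c ×ˢ BX K P L c,
        (1 / 2 : ℝ) ^ l * (if Nr (t + 1) (2 ^ l) p.1 p.2 then 1 else 0) ≤ C * (((P : ℝ) + 1) ^ t * (L : ℝ) ^ (t + 1)) := by
      intro l _
      rw [← Finset.mul_sum, Finset.sum_boole]
      have h3 := HC P L hL1 c hc (2 ^ l) (one_le_pow₀ (by norm_num))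
      calc (1 / 2 : ℝ) ^ l * _ ≤ (1 / 2 : ℝ) ^ l * (C * (2 ^ l * ((P : ℝ) + 1) ^ t * (L : ℝ) ^ (t + 1))) :=
            mul_le_mul_of_nonneg_left (by convert h3) (by positivity)
        _ = ((1 / 2 : ℝ) ^ l * 2 ^ l) * (C * (((P : ℝ) + 1) ^ t * (L : ℝ) ^ (t + 1))) := by ring
        _ = _ := by
          rw [← mul_pow]
          norm_num
    have h4 : ∑ l ∈ range (Λ + 2), ∑ p ∈ BX K P L c ×ˢ BX K P L c,
        (1 / 2 : ℝ) ^ l * (if Nr (t + 1) (2 ^ l) p.1 p.2 then 1 else 0) ≤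
        (Λ + 2) * (C * (((P : ℝ) + 1) ^ t * (L : ℝ) ^ (t + 1))) := by
      refine (Finset.sum_le_sum h2).trans (le_of_eq ?_)
      simp
    have h5 : ((Λ : ℝ) + 2) ≤ (c0 + 2 + (t + 1)) * (j + 1) := by
      rw [hΛ]
      push_cast
      have : (0 : ℝ) ≤ (c0 + 2) * j := by positivity
      nlinarith
    have hMp : (0 : ℝ) ≤ ((P : ℝ) + 1) ^ t * (L : ℝ) ^ (t + 1) := by positivity
    calc C1 * _ ≤ C1 * ((Λ + 2) * (C * (((P : ℝ) + 1) ^ t * (L : ℝ) ^ (t + 1)))) := mul_le_mul_of_nonneg_left h4 hC10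
      _ ≤ C1 * (((c0 + 2 + (t + 1)) * (j + 1)) * (C * (((P : ℝ) + 1) ^ t * (L : ℝ) ^ (t + 1)))) := by
          apply mul_le_mul_of_nonneg_left _ hC10
          exact mul_le_mul_of_nonneg_right h5 (by positivity)
      _ = (C1 * (C * (c0 + 2 + (t + 1)))) * ((j + 1) * (((P : ℝ) + 1) ^ t * (L : ℝ) ^ (t + 1))) := by ring
      _ ≤ _ := by
          apply mul_le_mul_of_nonneg_right _ (by positivity)
          linarith
  · intro p _
    apply mul_nonneg hC10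
    apply Finset.sum_nonneg
    intro l _
    split_ifs <;> positivity

end Pool.Agent.J4H72.AF
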