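import Pool.Agent.J4H7.AF.Stm

set_option autoImplicit false

/-! Project AF (helper7), pieces PW, BN. -/

namespace Pool.Agent.J4H72.AF

open Finset MeasureTheory
open Pool.Agent.J4H7.AF
open Pool.Agent.J4H7.WE (JJ FFs KK JJ_eq FFs_cont)
open Pool.Agent.J4H7.WS (fr fsR)
open Pool.Agent.Helper153.Vdc (ee)

theorem t_PW : S_PW := by
  intro k K hk hK z
  have hk0 : (0 : ℝ) < k := by exact_mod_cast hk
  have hK0 : (0 : ℝ) < K := by exact_mod_cast hK
  set S : ℝ := ‖∑ c ∈ range K, z c‖ with hS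
  have hS0 : 0 ≤ S := norm_nonneg _
  set B : Finset ℕ := (range K).filter (fun c => S / (2 * K) ≤ ‖z c‖) with hB
  have hN1 : 0 ≤ (4 * (k : ℝ)) ^ (2 * k) * ∑ c ∈ range K, ‖z c‖ ^ (2 * k) := by positivity
  have hN2 : 0 ≤ (2 * (K : ℝ)) ^ (2 * k) * ∑ c ∈ Sep k K, ∏ i, ‖z (c i)‖ ^ 2 := by positivity
  have hsplit : S / 2 ≤ ∑ c ∈ B, ‖z c‖ := by
    have h1 : S ≤ ∑ c ∈ range K, ‖z c‖ := norm_sum_le _ _
    rw [← sum_filter_add_sum_filter_not (range K) (fun c => S / (2 * K) ≤ ‖z c‖)] at h1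
    have h2 : ∑ c ∈ (range K).filter (fun c => ¬ S / (2 * K) ≤ ‖z c‖), ‖z c‖ ≤ S / 2 := by
      calc ∑ c ∈ (range K).filter (fun c => ¬ S / (2 * K) ≤ ‖z c‖), ‖z c‖
          ≤ ∑ _c ∈ (range K).filter (fun c => ¬ S / (2 * K) ≤ ‖z c‖), S / (2 * K) :=
            sum_le_sum (fun c hc => (not_le.1 (mem_filter.1 hc).2).le)
        _ = ((range K).filter (fun c => ¬ S / (2 * K) ≤ ‖z c‖)).card * (S / (2 * K)) := by
            rw [sum_const, nsmul_eq_mul]
        _ ≤ K * (S / (2 * K)) := by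
            apply mul_le_mul_of_nonneg_right _ (by positivity)
            have := card_filter_le (range K) (fun c => ¬ S / (2 * K) ≤ ‖z c‖)
            rw [card_range] at this
            exact_mod_cast this
        _ = S / 2 := by field_simp
    linarith
  by_cases hc : 2 * k - 1 ≤ B.card
  · -- broad
    let e := B.orderEmbOfFin rfl
    let c : Fin k → ℕ := fun i => e ⟨2 * (i : ℕ), by have := i.2; omega⟩
    have hcB : ∀ i, c i ∈ B := fun i => B.orderEmbOfFin_mem rfl _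
    have hcS : c ∈ Sep k K := by
      unfold Pool.Agent.J4H7.AF.Sep
      rw [mem_filter, Fintype.mem_piFinset]
      refine ⟨fun i => (mem_filter.1 (hcB i)).1, fun i j hij => ?_⟩
      have hij' : (i : ℕ) < j := hij
      have hj := j.2
      have h1 : c i < e ⟨2 * (i : ℕ) + 1, by omega⟩ := by
        apply e.strictMono
        rw [Fin.mk_lt_mk]; omega
      have h2 : e ⟨2 * (i : ℕ) + 1, by omega⟩ < c j := by
        apply e.strictMono
        rw [Fin.mk_lt_mk]; omega
      omega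
    have h1 : (S / (2 * K)) ^ (2 * k) ≤ ∏ i, ‖z (c i)‖ ^ 2 := by
      calc (S / (2 * K)) ^ (2 * k) = ∏ _i : Fin k, (S / (2 * K)) ^ 2 := by
            rw [prod_const, card_univ, Fintype.card_fin, ← pow_mul]
        _ ≤ _ := prod_le_prod (fun _ _ => by positivity) (fun i _ =>
            pow_le_pow_left₀ (by positivity) (mem_filter.1 (hcB i)).2 2)
    have h2 : ∏ i, ‖z (c i)‖ ^ 2 ≤ ∑ c ∈ Sep k K, ∏ i, ‖z (c i)‖ ^ 2 :=
      single_le_sum (f := fun c : Fin k → ℕ => ∏ i, ‖z (c i)‖ ^ 2) (fun _ _ => prod_nonneg (fun _ _ => by positivity)) hcS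
    have h3 : S ^ (2 * k) = (2 * (K : ℝ)) ^ (2 * k) * (S / (2 * K)) ^ (2 * k) := by
      rw [← mul_pow]; congr 1; field_simp
    have h4 : S ^ (2 * k) ≤ (2 * (K : ℝ)) ^ (2 * k) * ∑ c ∈ Sep k K, ∏ i, ‖z (c i)‖ ^ 2 := by
      rw [h3]
      exact mul_le_mul_of_nonneg_left (le_trans h1 h2) (by positivity)
    linarith
  · -- narrow
    have h1 : ∃ c ∈ range K, S / (4 * k) ≤ ‖z c‖ := by
      by_contra hcon
      push Not at hcon
      have hS1 : 0 < S := by
        have := hcon 0 (mem_range.2 (by omega))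
        have h2 : 0 < S / (4 * k) := lt_of_le_of_lt (norm_nonneg _) this
        by_contra hn
        have : S = 0 := le_antisymm (not_lt.1 hn) hS0
        rw [this, zero_div] at h2
        exact lt_irrefl _ h2
      have h2 : ∑ c ∈ B, ‖z c‖ ≤ B.card * (S / (4 * k)) := by
        rw [← nsmul_eq_mul, ← sum_const]
        exact sum_le_sum (fun c hc => (hcon c (mem_filter.1 hc).1).le)
      have h3 : (B.card : ℝ) ≤ 2 * k - 2 := by
        have : B.card + 2 ≤ 2 * k := by omega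
        have h : ((B.card + 2 : ℕ) : ℝ) ≤ ((2 * k : ℕ) : ℝ) := by exact_mod_cast this
        push_cast at h
        linarith
      have h4 : (B.card : ℝ) * (S / (4 * k)) ≤ (2 * k - 2) * (S / (4 * k)) :=
        mul_le_mul_of_nonneg_right h3 (by positivity)
      have h5 : (2 * (k : ℝ) - 2) * (S / (4 * k)) = S / 2 - S / (2 * k) := by
        field_simp
        ring
      have h6 : 0 < S / (2 * k) := by positivity
      linarith
    obtain ⟨c, hcK, hcS⟩ := h1
    have h2 : S ^ (2 * k) = (4 * (k : ℝ)) ^ (2 * k) * (S / (4 * k)) ^ (2 * k) := by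
      rw [← mul_pow]; congr 1; field_simp
    have h3 : (S / (4 * k)) ^ (2 * k) ≤ ∑ c ∈ range K, ‖z c‖ ^ (2 * k) :=
      le_trans (pow_le_pow_left₀ (by positivity) hcS _)
        (single_le_sum (f := fun c => ‖z c‖ ^ (2 * k)) (fun _ _ => by positivity) hcK)
    have h4 : S ^ (2 * k) ≤ (4 * (k : ℝ)) ^ (2 * k) * ∑ c ∈ range K, ‖z c‖ ^ (2 * k) := by
      rw [h2]
      exact mul_le_mul_of_nonneg_left h3 (by positivity)
    linarith

theorem ee_sum {ι : Type*} (s : Finset ι) (g : ι → ℝ) : ee (∑ i ∈ s, g i) = ∏ i ∈ s, ee (g i) := by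
  classical
  induction s using Finset.induction_on with
  | empty => simp [ee]
  | insert a s ha ih =>
    rw [sum_insert ha, prod_insert ha, Pool.Agent.Helper153.Vdc.ee_add, ih]

/-- the one dimensional sums -/
noncomputable def gI (f : ℝ → ℝ) (I : Finset ℕ) (α : ℝ) : ℂ := ∑ n ∈ I, ee (α * fr f n)

theorem FFs_pi {k : ℕ} (f : ℝ → ℝ) (I : Fin k → Finset ℕ) (α : ℝ) :
    FFs (Fintype.piFinset I) (fsR f) α = ∏ i, gI f (I i) α := by
  unfold FFs gI
  rw [prod_univ_sum]
  refine sum_congr rfl (fun x _ => ?_)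
  rw [← ee_sum]
  congr 1
  unfold fsR
  push_cast
  rw [mul_sum]

theorem norm_CB {k : ℕ} (f : ℝ → ℝ) (I : Finset ℕ) (α : ℝ) :
    ‖FFs (CB k I) (fsR f) α‖ ^ 2 = ‖gI f I α‖ ^ (2 * k) := by
  unfold CB
  rw [FFs_pi, prod_const, card_univ, Fintype.card_fin, norm_pow, ← pow_mul, mul_comm]

theorem norm_BX {k : ℕ} (f : ℝ → ℝ) (K P L : ℕ) (c : Fin k → ℕ) (α : ℝ) :
    ‖FFs (BX K P L c) (fsR f) α‖ ^ 2 = ∏ i, ‖gI f (Iv (K * P + c i) L) α‖ ^ 2 := by
  unfold BX
  rw [FFs_pi, norm_prod, prod_pow]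

theorem sum_blocks {M : Type*} [AddCommMonoid M] (h : ℕ → M) (u : ℕ → ℕ) (hu : ∀ c, u c ≤ u (c + 1)) (K : ℕ) :
    ∑ c ∈ range K, ∑ n ∈ Ico (u c) (u (c + 1)), h n = ∑ n ∈ Ico (u 0) (u K), h n := by
  induction K with
  | zero => simp
  | succ K ih =>
    have hmono : Monotone u := monotone_nat_of_le_succ hu
    rw [sum_range_succ, ih, sum_Ico_consecutive h (hmono (Nat.zero_le K)) (hu K)]

theorem gI_split (f : ℝ → ℝ) (K P L : ℕ) (α : ℝ) :
    gI f (Iv P (K * L)) α = ∑ c ∈ range K, gI f (Iv (K * P + c) L) α := by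
  have h := sum_blocks (fun n => ee (α * fr f n)) (fun c => (K * P + c) * L)
    (fun c => Nat.mul_le_mul_right _ (by omega)) K
  unfold gI Iv
  have e0 : (K * P + 0) * L = P * (K * L) := by ring
  have e1 : (K * P + K) * L = (P + 1) * (K * L) := by ring
  simp only [e0, e1] at h
  rw [← h]
  rfl

theorem t_BN : S_PW → S_BN := by
  intro hPW k K hk hK f P L
  have hpt : ∀ α : ℝ, ‖FFs (CB k (Iv P (K * L))) (fsR f) α‖ ^ 2 ≤
      (4 * (k : ℝ)) ^ (2 * k) * ∑ c ∈ range K, ‖FFs (CB k (Iv (K * P + c) L)) (fsR f) α‖ ^ 2 +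
      (2 * (K : ℝ)) ^ (2 * k) * ∑ c ∈ Pool.Agent.J4H7.AF.Sep k K, ‖FFs (BX K P L c) (fsR f) α‖ ^ 2 := by
    intro α
    have h := hPW k K hk hK (fun c => gI f (Iv (K * P + c) L) α)
    rw [← gI_split, ← norm_CB] at h
    simp only [norm_CB, norm_BX]
    rw [norm_CB] at h
    exact h
  have c1 : ∀ A : Finset (Fin k → ℕ), Continuous (fun α : ℝ => ‖FFs A (fsR f) α‖ ^ 2) := by
    intro A
    exact (FFs_cont A (fsR f)).norm.pow 2
  have hi := intervalIntegral.integral_mono_on (μ := volume) (show (-(1 / 2) : ℝ) ≤ 1 / 2 by norm_num)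
    ((c1 (CB k (Iv P (K * L)))).intervalIntegrable _ _)
    (Continuous.intervalIntegrable (by
      apply Continuous.add
      · exact continuous_const.mul (continuous_finsetSum _ (fun c _ => c1 _))
      · exact continuous_const.mul (continuous_finsetSum _ (fun c _ => c1 _))) _ _) (fun α _ => hpt α)
  rw [JJ_eq, intervalIntegral.integral_add, intervalIntegral.integral_const_mul, intervalIntegral.integral_const_mul,
    intervalIntegral.integral_finsetSum, intervalIntegral.integral_finsetSum] at hi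
  · simp only [JJ_eq] at hi
    exact hi
  · intro c _; exact (c1 _).intervalIntegrable _ _
  · intro c _; exact (c1 _).intervalIntegrable _ _
  · exact (continuous_const.mul (continuous_finsetSum _ (fun c _ => c1 _))).intervalIntegrable _ _
  · exact (continuous_const.mul (continuous_finsetSum _ (fun c _ => c1 _))).intervalIntegrable _ _

theorem sum_mul_range {M : Type*} [AddCommMonoid M] (g : ℕ → M) (n K : ℕ) :
    ∑ P ∈ range n, ∑ c ∈ range K, g (K * P + c) = ∑ q ∈ range (K * n), g q := by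
  induction n with
  | zero => simp
  | succ n ih =>
    rw [sum_range_succ, ih, Nat.mul_succ, sum_range_add]

theorem t_IT : S_BN → S_IT := by
  intro hBN k K hk hK f m
  set A : ℝ := (4 * (k : ℝ)) ^ (2 * k) with hA
  set B : ℝ := (2 * (K : ℝ)) ^ (2 * k) with hB
  have hk1 : (1 : ℝ) ≤ k := by exact_mod_cast hk
  have hA1 : 1 ≤ A := one_le_pow₀ (by linarith)
  have hB0 : 0 ≤ B := by positivity
  have key : ∀ l : ℕ, l ≤ m → (JJ (CB k (range (K ^ m))) (fsR f) : ℝ) ≤
      A ^ l * ∑ P ∈ range (K ^ l), (JJ (CB k (Iv P (K ^ (m - l)))) (fsR f) : ℝ) +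
      A ^ l * (B * ∑ j ∈ range l, ∑ P ∈ range (K ^ j), ∑ c ∈ Pool.Agent.J4H7.AF.Sep k K,
        (JJ (BX K P (K ^ (m - j - 1)) c) (fsR f) : ℝ)) := by
    intro l
    induction l with
    | zero =>
      intro _
      have e : Iv 0 (K ^ m) = range (K ^ m) := by
        unfold Iv
        rw [zero_mul, zero_add, one_mul, range_eq_Ico]
      simp [e]
    | succ l ih =>
      intro hl
      have h := ih (by omega)
      have e : m - l = (m - (l + 1)) + 1 := by omega
      have hstep : ∑ P ∈ range (K ^ l), (JJ (CB k (Iv P (K ^ (m - l)))) (fsR f) : ℝ) ≤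
          A * ∑ P ∈ range (K ^ (l + 1)), (JJ (CB k (Iv P (K ^ (m - (l + 1))))) (fsR f) : ℝ) +
          B * ∑ P ∈ range (K ^ l), ∑ c ∈ Pool.Agent.J4H7.AF.Sep k K, (JJ (BX K P (K ^ (m - l - 1)) c) (fsR f) : ℝ) := by
        rw [pow_succ, mul_comm (K ^ l) K, ← sum_mul_range (fun q => (JJ (CB k (Iv q (K ^ (m - (l + 1))))) (fsR f) : ℝ)),
          mul_sum, mul_sum, ← sum_add_distrib]
        refine sum_le_sum (fun P _ => ?_)
        have h2 := hBN k K hk hK f P (K ^ (m - (l + 1)))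
        rw [← pow_succ'] at h2
        rw [e]
        exact h2
      have hZ : 0 ≤ B * ∑ j ∈ range l, ∑ P ∈ range (K ^ j), ∑ c ∈ Pool.Agent.J4H7.AF.Sep k K,
          (JJ (BX K P (K ^ (m - j - 1)) c) (fsR f) : ℝ) :=
        mul_nonneg hB0 (sum_nonneg (fun _ _ => sum_nonneg (fun _ _ => sum_nonneg (fun _ _ => Nat.cast_nonneg _))))
      have hY : 0 ≤ B * ∑ P ∈ range (K ^ l), ∑ c ∈ Pool.Agent.J4H7.AF.Sep k K,
          (JJ (BX K P (K ^ (m - l - 1)) c) (fsR f) : ℝ) :=
        mul_nonneg hB0 (sum_nonneg (fun _ _ => sum_nonneg (fun _ _ => Nat.cast_nonneg _)))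
      have hAl : 0 ≤ A ^ l := by positivity
      rw [sum_range_succ, mul_add B]
      have h3 := mul_le_mul_of_nonneg_left hstep hAl
      have h4 : A ^ l ≤ A ^ (l + 1) := pow_le_pow_right₀ hA1 (by omega)
      have h5 := mul_le_mul_of_nonneg_right h4 hZ
      have h6 := mul_le_mul_of_nonneg_right h4 hY
      rw [pow_succ]
      rw [pow_succ] at h5 h6
      nlinarith
  have hm := key m le_rfl
  have e1 : ∀ P : ℕ, (JJ (CB k (Iv P (K ^ (m - m)))) (fsR f) : ℝ) = 1 := by
    intro P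
    have e : Iv P (K ^ (m - m)) = {P} := by
      unfold Iv
      rw [Nat.sub_self, pow_zero, mul_one, mul_one, Nat.Ico_succ_singleton]
    rw [e]
    unfold JJ CB
    rw [Fintype.piFinset_singleton, singleton_product_singleton, filter_singleton, if_pos rfl, card_singleton, Nat.cast_one]
  simp only [e1] at hm
  rw [sum_const, card_range, nsmul_eq_mul, mul_one, ← mul_add] at hm
  push_cast at hm
  exact hm

end Pool.Agent.J4H72.AF
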